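import Pool.Agent.Q83.Spray.Local

/-!
# Composition of local flows (helper83)
-/

set_option autoImplicit false

namespace Pool.Agent.Q83.SP

open Set Filter Topology

variable {E : Type} [NormedAddCommGroup E] [NormedSpace ℝ E]

/-- `φ(z, r)` is defined near `(x, 0)`, preserves the sets `X` and `C`, and `φ(z, 0) = z` on `X`;
`D` is its strict derivative at `(x, 0)`. -/
structure IsFlow (X C : Set E) (x : E) {V : Type} [NormedAddCommGroup V] [NormedSpace ℝ V]
    (φ : E × V → E) (D : E × V →L[ℝ] E) : Prop where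
  strict : HasStrictFDerivAt φ D (x, 0)
  mapsX : ∀ᶠ p in 𝓝 ((x, 0) : E × V), p.1 ∈ X → φ p ∈ X
  mapsC : ∀ᶠ p in 𝓝 ((x, 0) : E × V), p.1 ∈ C → φ p ∈ C
  base : ∀ᶠ z in 𝓝 x, z ∈ X → φ (z, 0) = z

variable {X C : Set E} {x : E}

/-- the derivative of `r ↦ φ(x, r)` -/
noncomputable def pvel {V : Type} [NormedAddCommGroup V] [NormedSpace ℝ V] (D : E × V →L[ℝ] E) :
    V →L[ℝ] E := D.comp (ContinuousLinearMap.inr ℝ E V)

theorem IsFlow.fix {V : Type} [NormedAddCommGroup V] [NormedSpace ℝ V] {φ : E × V → E}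
    {D : E × V →L[ℝ] E} (h : IsFlow X C x φ D) (hx : x ∈ X) : φ (x, 0) = x :=
  h.base.self_of_nhds hx

theorem isFlow_const : IsFlow X C x (fun p : E × (Fin 0 → ℝ) => p.1)
    (ContinuousLinearMap.fst ℝ E (Fin 0 → ℝ)) where
  strict := hasStrictFDerivAt_fst
  mapsX := Eventually.of_forall fun _ h => h
  mapsC := Eventually.of_forall fun _ h => h
  base := Eventually.of_forall fun _ _ => rfl

/-- composition -/
theorem IsFlow.comp {V W : Type} [NormedAddCommGroup V] [NormedSpace ℝ V] [NormedAddCommGroup W]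
    [NormedSpace ℝ W] {φ : E × V → E} {D : E × V →L[ℝ] E} {ψ : E × W → E} {D' : E × W →L[ℝ] E}
    (h : IsFlow X C x φ D) (h' : IsFlow X C x ψ D') (hx : x ∈ X) :
    ∃ D'' : E × (V × W) →L[ℝ] E,
      IsFlow X C x (fun p : E × (V × W) => ψ (φ (p.1, p.2.1), p.2.2)) D'' ∧
      ∀ (v : V) (w : W), pvel D'' (v, w) = pvel D v + pvel D' w := by
  have hfix := h.fix hx
  -- the inner map
  set g : E × (V × W) → E × V := fun p => (p.1, p.2.1) with hg
  set g' : E × (V × W) →L[ℝ] E × V := (ContinuousLinearMap.fst ℝ E (V × W)).prod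
    ((ContinuousLinearMap.fst ℝ V W).comp (ContinuousLinearMap.snd ℝ E (V × W))) with hg'
  have hgs : HasStrictFDerivAt g g' (x, 0) := g'.hasStrictFDerivAt
  set k' : E × (V × W) →L[ℝ] W :=
    (ContinuousLinearMap.snd ℝ V W).comp (ContinuousLinearMap.snd ℝ E (V × W)) with hk'
  have hks : HasStrictFDerivAt (fun p : E × (V × W) => p.2.2) k' (x, 0) := k'.hasStrictFDerivAt
  have h1 : HasStrictFDerivAt (fun p : E × (V × W) => φ (p.1, p.2.1)) (D.comp g') (x, 0) :=
    HasStrictFDerivAt.comp (x, 0) (g := φ) (f := g) h.strict hgs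
  have h2 : HasStrictFDerivAt (fun p : E × (V × W) => (φ (p.1, p.2.1), p.2.2))
      ((D.comp g').prod k') (x, 0) := h1.prodMk hks
  have hval : (fun p : E × (V × W) => (φ (p.1, p.2.1), p.2.2)) (x, 0) = (x, 0) := by
    change (φ (x, 0), (0 : W)) = (x, 0)
    rw [hfix]
  have h3 : HasStrictFDerivAt ψ D' ((fun p : E × (V × W) => (φ (p.1, p.2.1), p.2.2)) (x, 0)) := by
    rw [hval]; exact h'.strict
  have h4 := HasStrictFDerivAt.comp (x, 0) h3 h2
  have hcont : Tendsto (fun p : E × (V × W) => (φ (p.1, p.2.1), p.2.2)) (𝓝 (x, 0))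
      (𝓝 ((x, 0) : E × W)) := by
    have := h2.continuousAt
    simpa [ContinuousAt, hfix] using this
  have hgt : Tendsto g (𝓝 (x, 0)) (𝓝 ((x, 0) : E × V)) := hgs.continuousAt
  refine ⟨D'.comp ((D.comp g').prod k'), ⟨h4, ?_, ?_, ?_⟩, ?_⟩
  · filter_upwards [hgt.eventually h.mapsX, hcont.eventually h'.mapsX] with p hp1 hp2 hp
    exact hp2 (hp1 hp)
  · filter_upwards [hgt.eventually h.mapsC, hcont.eventually h'.mapsC] with p hp1 hp2 hp
    exact hp2 (hp1 hp)
  · filter_upwards [h.base, h'.base] with z hz1 hz2 hz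
    change ψ (φ (z, 0), 0) = z
    rw [hz1 hz, hz2 hz]
  · intro v w
    -- the derivative of `ψ(·, 0)` fixes the velocity of the curve `φ(x, t v)`
    have hcurve : HasDerivAt (fun t : ℝ => φ (x, t • v)) (pvel D v) 0 := by
      have e1 : HasDerivAt (fun t : ℝ => ((x, t • v) : E × V)) ((0 : E), v) 0 := by
        have := (hasDerivAt_const (0 : ℝ) x).prodMk ((hasDerivAt_id (0 : ℝ)).smul_const v)
        simpa using this
      have e2 : HasFDerivAt φ D ((fun t : ℝ => ((x, t • v) : E × V)) 0) := by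
        simp only [zero_smul]
        exact h.strict.hasFDerivAt
      have := e2.comp_hasDerivAt (0 : ℝ) e1
      simpa [pvel, Function.comp_def] using this
    have hcurve2 : HasDerivAt (fun t : ℝ => ψ (φ (x, t • v), 0)) (D' (pvel D v, 0)) 0 := by
      have e1 : HasDerivAt (fun t : ℝ => ((φ (x, t • v), 0) : E × W)) (pvel D v, (0 : W)) 0 :=
        hcurve.prodMk (hasDerivAt_const (0 : ℝ) (0 : W))
      have e2 : HasFDerivAt ψ D' ((fun t : ℝ => ((φ (x, t • v), 0) : E × W)) 0) := by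
        simp only [zero_smul, hfix]
        exact h'.strict.hasFDerivAt
      exact e2.comp_hasDerivAt (0 : ℝ) e1
    have heq : (fun t : ℝ => ψ (φ (x, t • v), 0)) =ᶠ[𝓝 0] fun t : ℝ => φ (x, t • v) := by
      have hc : Tendsto (fun t : ℝ => ((x, t • v) : E × V)) (𝓝 0) (𝓝 (x, 0)) := by
        have : Continuous fun t : ℝ => ((x, t • v) : E × V) := by fun_prop
        simpa using this.tendsto 0
      have hc2 : Tendsto (fun t : ℝ => φ (x, t • v)) (𝓝 0) (𝓝 x) := by
        have := hcurve.continuousAt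
        rw [ContinuousAt] at this
        simpa [hfix] using this
      filter_upwards [hc.eventually h.mapsX, hc2.eventually h'.base] with t ht1 ht2
      exact ht2 (ht1 hx)
    have hD : D' (pvel D v, 0) = pvel D v :=
      (hcurve2.congr_of_eventuallyEq heq.symm).unique hcurve
    have e : pvel (D'.comp ((D.comp g').prod k')) (v, w) = D' (pvel D v, w) := by
      simp [pvel, hg', hk']
    have e2 : ((pvel D v, w) : E × W) = (pvel D v, 0) + (0, w) := by simp
    rw [e, e2, map_add, hD]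
    simp [pvel]

/-- finitely many flows -/
theorem exists_flow (hx : x ∈ X) {k : ℕ} {V : Fin k → Type} [∀ a, NormedAddCommGroup (V a)]
    [∀ a, NormedSpace ℝ (V a)] [∀ a, CompleteSpace (V a)] (φ : ∀ a, E × V a → E)
    (D : ∀ a, E × V a →L[ℝ] E) (h : ∀ a, IsFlow X C x (φ a) (D a)) :
    ∃ (W : Type) (_ : NormedAddCommGroup W) (_ : NormedSpace ℝ W) (_ : CompleteSpace W)
      (ψ : E × W → E) (D' : E × W →L[ℝ] E), IsFlow X C x ψ D' ∧
      ∀ w : ∀ a, V a, ∃ u : W, pvel D' u = ∑ a, pvel (D a) (w a) := by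
  induction k with
  | zero =>
    exact ⟨Fin 0 → ℝ, inferInstance, inferInstance, inferInstance, _, _, isFlow_const,
      fun w => ⟨0, by simp only [map_zero, Finset.univ_eq_empty, Finset.sum_empty]⟩⟩
  | succ k ih =>
    obtain ⟨W, i1, i2, i3, ψ, D', hψ, hv⟩ := ih (fun a => φ a.castSucc) (fun a => D a.castSucc)
      (fun a => h a.castSucc)
    obtain ⟨D'', hD'', hsum⟩ := hψ.comp (h (Fin.last k)) hx
    refine ⟨W × V (Fin.last k), inferInstance, inferInstance, inferInstance, _, D'', hD'', ?_⟩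
    intro w
    obtain ⟨u, hu⟩ := hv fun a => w a.castSucc
    refine ⟨(u, w (Fin.last k)), ?_⟩
    rw [hsum, hu, Fin.sum_univ_castSucc]

/-- **The abstract statement**: if the velocities of finitely many flows contain the kernel of the
derivative of the equations, then all points of `X` near `x ∈ C` belong to `C`. -/
theorem flow_onto [FiniteDimensional ℝ E] {W₀ : Type*} [NormedAddCommGroup W₀] [NormedSpace ℝ W₀]
    {Ψ : E → W₀} {J : E →L[ℝ] W₀} (hΨ : HasStrictFDerivAt Ψ J x) (hX : ∀ y, y ∈ X ↔ Ψ y = 0)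
    (hx : x ∈ X) (hxC : x ∈ C) {k : ℕ} {V : Fin k → Type} [∀ a, NormedAddCommGroup (V a)]
    [∀ a, NormedSpace ℝ (V a)] [∀ a, CompleteSpace (V a)] (φ : ∀ a, E × V a → E)
    (D : ∀ a, E × V a →L[ℝ] E) (h : ∀ a, IsFlow X C x (φ a) (D a))
    (hker : ∀ v, J v = 0 → ∃ w : ∀ a, V a, ∑ a, pvel (D a) (w a) = v) : C ∈ 𝓝[X] x := by
  obtain ⟨W, i1, i2, i3, ψ, D', hψ, hv⟩ := exists_flow hx φ D h
  have hstr : HasStrictFDerivAt (fun r : W => ψ (x, r)) (pvel D') 0 :=
    HasStrictFDerivAt.comp (0 : W) (g := ψ) (f := fun r : W => (x, r)) hψ.strict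
      ((hasStrictFDerivAt_const x (0 : W)).prodMk (hasStrictFDerivAt_id (0 : W)))
  have hcon : Tendsto (fun r : W => ((x, r) : E × W)) (𝓝 0) (𝓝 (x, 0)) :=
    (Continuous.prodMk_right x).tendsto (0 : W)
  have hU : {r : W | ψ (x, r) ∈ X ∧ ψ (x, r) ∈ C} ∈ 𝓝 (0 : W) := by
    filter_upwards [hcon.eventually hψ.mapsX, hcon.eventually hψ.mapsC] with r h1 h2
    exact ⟨h1 hx, h2 hxC⟩
  have := local_onto hstr (hψ.fix hx) hΨ (fun v hv0 => by
    obtain ⟨w, hw⟩ := hker v hv0
    obtain ⟨u, hu⟩ := hv w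
    exact ⟨u, by rw [hu, hw]⟩) hU (fun r hr => (hX _).1 hr.1)
  rw [mem_nhdsWithin_iff_eventually]
  filter_upwards [this] with y hy hyX
  obtain ⟨r, hr, rfl⟩ := hy ((hX y).1 hyX)
  exact hr.2

end Pool.Agent.Q83.SP
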