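import Pool.Agent.Q83.Spray.Open
import Pool.Agent.Q83.Spray.Flow

/-!
# Finite families of sprays (helper83)
-/

set_option autoImplicit false

namespace Pool.Agent.Q83.SP

open MvPolynomial Set Filter Topology Pool.Agent.H581R2 Pool.Agent.TH729.SQ

variable {n m : ℕ} {F : Fin m → MvPolynomial (Fin n) ℚ} {N : ℕ}

lemma strict_joint (G : MvPolynomial (Fin n ⊕ Fin N) ℚ) (z₀ : (Fin n → ℝ) × (Fin N → ℝ)) :
    ∃ D : (Fin n → ℝ) × (Fin N → ℝ) →L[ℝ] ℝ, HasStrictFDerivAt (fun z : (Fin n → ℝ) × (Fin N → ℝ) =>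
      (aeval (Sum.elim z.1 z.2) G : ℝ)) D z₀ := by
  have h2 : HasStrictFDerivAt (fun z : (Fin n → ℝ) × (Fin N → ℝ) =>
      (Sum.elim z.1 z.2 : Fin n ⊕ Fin N → ℝ))
      (ContinuousLinearMap.pi fun q => Sum.elim
        (fun i => (ContinuousLinearMap.proj i : (Fin n → ℝ) →L[ℝ] ℝ).comp
          (ContinuousLinearMap.fst ℝ (Fin n → ℝ) (Fin N → ℝ)))
        (fun j => (ContinuousLinearMap.proj j : (Fin N → ℝ) →L[ℝ] ℝ).comp
          (ContinuousLinearMap.snd ℝ (Fin n → ℝ) (Fin N → ℝ))) q) z₀ := by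
    rw [hasStrictFDerivAt_pi']
    rintro (i | j)
    · exact ((ContinuousLinearMap.proj i : (Fin n → ℝ) →L[ℝ] ℝ).comp
        (ContinuousLinearMap.fst ℝ (Fin n → ℝ) (Fin N → ℝ))).hasStrictFDerivAt
    · exact ((ContinuousLinearMap.proj j : (Fin N → ℝ) →L[ℝ] ℝ).comp
        (ContinuousLinearMap.snd ℝ (Fin n → ℝ) (Fin N → ℝ))).hasStrictFDerivAt
  exact ⟨_, HasStrictFDerivAt.comp (g := fun y : Fin n ⊕ Fin N → ℝ => (aeval y G : ℝ)) z₀
    (strict_aeval G _) h2⟩

/-- the map of a spray -/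
noncomputable def Spray.map (s : Spray F N) : (Fin n → ℝ) × (Fin N → ℝ) → Fin n → ℝ :=
  fun z i => (aeval (Sum.elim z.1 z.2) (s.num i) : ℝ) / aeval (Sum.elim z.1 z.2) s.den

lemma Spray.strict_map (s : Spray F N) {x : Fin n → ℝ}
    (hx : (aeval (Sum.elim x (0 : Fin N → ℝ)) s.den : ℝ) ≠ 0) :
    ∃ D : (Fin n → ℝ) × (Fin N → ℝ) →L[ℝ] (Fin n → ℝ), HasStrictFDerivAt s.map D (x, 0) := by
  have h : ∀ i, ∃ D : (Fin n → ℝ) × (Fin N → ℝ) →L[ℝ] ℝ, HasStrictFDerivAt (fun z => s.map z i) D (x, 0) := by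
    intro i
    obtain ⟨D1, h1⟩ := strict_joint (s.num i) (x, (0 : Fin N → ℝ))
    obtain ⟨D2, h2⟩ := strict_joint s.den (x, (0 : Fin N → ℝ))
    have h2' := (hasStrictDerivAt_inv hx).comp_hasStrictFDerivAt (x, (0 : Fin N → ℝ)) h2
    refine ⟨_, (h1.mul h2').congr_of_eventuallyEq (Eventually.of_forall fun z => ?_)⟩
    change _ = _ / _
    rw [div_eq_mul_inv]
    rfl
  choose D hD using h
  exact ⟨ContinuousLinearMap.pi D, hasStrictFDerivAt_pi.2 hD⟩

lemma isOpen_den' (s : Spray F N) : IsOpen {z : (Fin n → ℝ) × (Fin N → ℝ) |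
    (aeval (Sum.elim z.1 z.2) s.den : ℝ) ≠ 0} :=
  isOpen_ne_fun ((continuous_aeval s.den).comp continuous_elim) continuous_const

/-- the spray maps the closure of the rational points to itself -/
lemma Spray.maps_closure (s : Spray F N) {z : (Fin n → ℝ) × (Fin N → ℝ)}
    (hz : (aeval (Sum.elim z.1 z.2) s.den : ℝ) ≠ 0) (hx : z.1 ∈ closure (rl (ratPoints F))) :
    s.map z ∈ closure (rl (ratPoints F)) := by
  have hcd : Continuous fun z : (Fin n → ℝ) × (Fin N → ℝ) => (aeval (Sum.elim z.1 z.2) s.den : ℝ) :=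
    (continuous_aeval s.den).comp continuous_elim
  set A : Set ((Fin n → ℝ) × (Fin N → ℝ)) :=
    {z | (aeval (Sum.elim z.1 z.2) s.den : ℝ) ≠ 0} ∩
      ((rl (ratPoints F)) ×ˢ (rl (univ : Set (Fin N → ℚ)))) with hA
  have hmem : z ∈ closure A := by
    refine (isOpen_den' s).inter_closure ⟨hz, ?_⟩
    rw [closure_prod_eq]
    exact ⟨hx, dense_rl N z.2⟩
  have hGc : ContinuousAt s.map z := by
    refine continuousAt_pi.2 fun i => ContinuousAt.div ?_ ?_ hz
    · exact ((continuous_aeval (s.num i)).comp continuous_elim).continuousAt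
    · exact hcd.continuousAt
  have h1 := (hGc.continuousWithinAt (s := A)).mem_closure_image hmem
  refine closure_mono ?_ h1
  rintro _ ⟨⟨a, t⟩, ⟨hne, ⟨a', ha', rfl⟩, ⟨t', -, rfl⟩⟩, rfl⟩
  simp only [Set.mem_ofPred_eq, elim_cast, aeval_cast] at hne
  refine ⟨fun i => eval (Sum.elim a' t') (s.num i) / eval (Sum.elim a' t') s.den, fun k => ?_, ?_⟩
  · have h3 := s.maps (fun i => (a' i : ℝ)) (fun j => (t' j : ℝ)) (rl_subset F ⟨a', ha', rfl⟩)
      (by rw [elim_cast, aeval_cast]; exact hne) k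
    have h4 : (fun i => (aeval (Sum.elim (fun i => (a' i : ℝ)) (fun j => (t' j : ℝ))) (s.num i) : ℝ)
        / aeval (Sum.elim (fun i => (a' i : ℝ)) (fun j => (t' j : ℝ))) s.den) =
        fun i => ((eval (Sum.elim a' t') (s.num i) / eval (Sum.elim a' t') s.den : ℚ) : ℝ) := by
      funext i
      rw [elim_cast, aeval_cast, aeval_cast, Rat.cast_div]
    rw [h4, aeval_cast] at h3
    exact_mod_cast h3
  · funext i
    simp only [Spray.map, elim_cast, aeval_cast, Rat.cast_div]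

/-- sprays are flows -/
theorem Spray.isFlow (s : Spray F N) {x : Fin n → ℝ}
    (hx : (aeval (Sum.elim x (0 : Fin N → ℝ)) s.den : ℝ) ≠ 0) :
    ∃ D : (Fin n → ℝ) × (Fin N → ℝ) →L[ℝ] (Fin n → ℝ),
      IsFlow (realPoints F) (closure (rl (ratPoints F))) x s.map D ∧ pvel D = s.L x := by
  obtain ⟨D, hD⟩ := s.strict_map hx
  have hne : ∀ᶠ p in 𝓝 ((x, 0) : (Fin n → ℝ) × (Fin N → ℝ)),
      (aeval (Sum.elim p.1 p.2) s.den : ℝ) ≠ 0 := (isOpen_den' s).mem_nhds hx
  refine ⟨D, ⟨hD, ?_, ?_, ?_⟩, ?_⟩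
  · filter_upwards [hne] with p hp hpX
    exact s.maps p.1 p.2 hpX hp
  · filter_upwards [hne] with p hp hpC
    exact s.maps_closure hp hpC
  · filter_upwards [(isOpen_den s).mem_nhds hx] with z hz hzX
    exact funext fun i => s.base z hzX hz i
  · have h1 : HasFDerivAt (fun r : Fin N → ℝ => s.map (x, r)) (pvel D) 0 :=
      (HasStrictFDerivAt.comp (0 : Fin N → ℝ) (g := s.map) (f := fun r : Fin N → ℝ => (x, r)) hD
        ((hasStrictFDerivAt_const x (0 : Fin N → ℝ)).prodMk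
          (hasStrictFDerivAt_id (0 : Fin N → ℝ)))).hasFDerivAt
    exact h1.unique (s.strict hx).hasFDerivAt

variable {k : ℕ} {M : Fin k → ℕ}

/-- The velocities at `x` (the derivatives of `s_a(x, r)` with respect to `r` at `r = 0`) of the
sprays `s_a` which are defined at `x` span the Zariski tangent space of `X` at `x`.  (The numerators
of the derivatives are used; they differ from the derivatives by the factor `den_a(x, 0)²`.) -/
def Dominated (s : ∀ a, Spray F (M a)) (x : Fin n → ℝ) : Prop :=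
  ∀ v : Fin n → ℝ, (∀ l, ∑ i, (aeval x (pderiv i (F l)) : ℝ) * v i = 0) →
    ∃ w : ∀ a, Fin (M a) → ℝ,
      (∀ a, (aeval (Sum.elim x (0 : Fin (M a) → ℝ)) (s a).den : ℝ) = 0 → w a = 0) ∧
      ∀ i, ∑ a, ∑ j, (aeval (Sum.elim x (0 : Fin (M a) → ℝ)) ((s a).vel i j) : ℝ) * w a j = v i

lemma exists_trivial (s : ∀ a, Spray F (M a)) (x : Fin n → ℝ) (a : Fin k) :
    ∃ (φ : (Fin n → ℝ) × (Fin (M a) → ℝ) → Fin n → ℝ)
      (D : (Fin n → ℝ) × (Fin (M a) → ℝ) →L[ℝ] (Fin n → ℝ)),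
      IsFlow (realPoints F) (closure (rl (ratPoints F))) x φ D ∧
      ((aeval (Sum.elim x (0 : Fin (M a) → ℝ)) (s a).den : ℝ) ≠ 0 → pvel D = (s a).L x) := by
  by_cases h : (aeval (Sum.elim x (0 : Fin (M a) → ℝ)) (s a).den : ℝ) = 0
  · exact ⟨fun p => p.1, ContinuousLinearMap.fst ℝ _ _, ⟨hasStrictFDerivAt_fst,
      Eventually.of_forall fun _ h => h, Eventually.of_forall fun _ h => h,
      Eventually.of_forall fun _ _ => rfl⟩, fun h' => absurd h h'⟩
  · obtain ⟨D, hD, hv⟩ := (s a).isFlow h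
    exact ⟨_, D, hD, fun _ => hv⟩

lemma scale_vel (s : ∀ a, Spray F (M a)) {x : Fin n → ℝ} {w : ∀ a, Fin (M a) → ℝ}
    (hw : ∀ a, (aeval (Sum.elim x (0 : Fin (M a) → ℝ)) (s a).den : ℝ) = 0 → w a = 0) (a : Fin k)
    (i : Fin n) : (s a).L x ((aeval (Sum.elim x (0 : Fin (M a) → ℝ)) (s a).den : ℝ) ^ 2 • w a) i =
      ∑ j, (aeval (Sum.elim x (0 : Fin (M a) → ℝ)) ((s a).vel i j) : ℝ) * w a j := by
  by_cases h : (aeval (Sum.elim x (0 : Fin (M a) → ℝ)) (s a).den : ℝ) = 0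
  · rw [hw a h]
    simp
  · rw [Spray.L_apply, div_eq_iff (pow_ne_zero 2 h), Finset.sum_mul]
    refine Finset.sum_congr rfl fun j _ => ?_
    simp only [Pi.smul_apply, smul_eq_mul]
    ring

/-- **The closure of the rational points is a neighbourhood of its dominated points.** -/
theorem near_fam (s : ∀ a, Spray F (M a)) {x : Fin n → ℝ} (hx : x ∈ closure (rl (ratPoints F)))
    (hd : Dominated s x) : closure (rl (ratPoints F)) ∈ 𝓝[realPoints F] x := by
  choose φ D hφ hv using exists_trivial s x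
  refine flow_onto (W₀ := Fin m → ℝ) (strict_F F x) (fun y => ?_) (closure_subset_real F hx) hx φ D
    hφ fun v hv0 => ?_
  · constructor
    · exact fun h => funext fun l => h l
    · exact fun h l => congrFun h l
  · obtain ⟨w, hw1, hw2⟩ := hd v fun l => by
      rw [← Jac_apply, hv0]; rfl
    refine ⟨fun a => (aeval (Sum.elim x (0 : Fin (M a) → ℝ)) (s a).den : ℝ) ^ 2 • w a, ?_⟩
    funext i
    rw [Finset.sum_apply, ← hw2 i]
    refine Finset.sum_congr rfl fun a _ => ?_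
    rw [← scale_vel s hw1 a i]
    by_cases h : (aeval (Sum.elim x (0 : Fin (M a) → ℝ)) (s a).den : ℝ) = 0
    · simp only [hw1 a h, smul_zero, map_zero]
    · rw [hv a h]

/-- the total velocity of the sprays in a subset -/
noncomputable def Ltot (s : ∀ a, Spray F (M a)) (B : Finset (Fin k)) (y : Fin n → ℝ) :
    (∀ a, Fin (M a) → ℝ) →L[ℝ] (Fin n → ℝ) :=
  ∑ a ∈ B, ((s a).L y).comp (ContinuousLinearMap.proj a)

lemma Ltot_apply (s : ∀ a, Spray F (M a)) (B : Finset (Fin k)) (y : Fin n → ℝ)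
    (w : ∀ a, Fin (M a) → ℝ) : Ltot s B y w = ∑ a ∈ B, (s a).L y (w a) := by
  simp [Ltot]

lemma dominated_of (s : ∀ a, Spray F (M a)) (B : Finset (Fin k)) {y : Fin n → ℝ}
    (hB : ∀ a ∈ B, (aeval (Sum.elim y (0 : Fin (M a) → ℝ)) (s a).den : ℝ) ≠ 0)
    (h : LinearMap.ker (Jac F y : (Fin n → ℝ) →ₗ[ℝ] (Fin m → ℝ)) ≤
        LinearMap.range (Ltot s B y : (∀ a, Fin (M a) → ℝ) →ₗ[ℝ] (Fin n → ℝ))) :
    Dominated s y := by
  classical
  intro v hv
  obtain ⟨w, hw⟩ := h (x := v) (by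
      change Jac F y v = 0
      funext l
      rw [Jac_apply]
      exact hv l)
  have hw' : Ltot s B y w = v := hw
  rw [Ltot_apply] at hw'
  refine ⟨fun a => if a ∈ B then
    (((aeval (Sum.elim y (0 : Fin (M a) → ℝ)) (s a).den : ℝ) ^ 2)⁻¹) • w a else 0, ?_, ?_⟩
  · intro a ha
    by_cases hBa : a ∈ B
    · exact absurd ha (hB a hBa)
    · simp [hBa]
  · intro i
    rw [← hw', Finset.sum_apply, ← Finset.sum_subset (Finset.subset_univ B)]
    · refine Finset.sum_congr rfl fun a ha => ?_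
      have h1 := hB a ha
      rw [Spray.L_apply, Finset.sum_div]
      refine Finset.sum_congr rfl fun j _ => ?_
      simp only [ha, if_true, Pi.smul_apply, smul_eq_mul]
      field_simp
    · intro a _ ha
      simp [ha]

lemma of_dominated (s : ∀ a, Spray F (M a)) (B : Finset (Fin k)) {y : Fin n → ℝ}
    (hB : ∀ a, a ∉ B → (aeval (Sum.elim y (0 : Fin (M a) → ℝ)) (s a).den : ℝ) = 0)
    (h : Dominated s y) :
    LinearMap.ker (Jac F y : (Fin n → ℝ) →ₗ[ℝ] (Fin m → ℝ)) ≤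
        LinearMap.range (Ltot s B y : (∀ a, Fin (M a) → ℝ) →ₗ[ℝ] (Fin n → ℝ)) := by
  intro v hv
  obtain ⟨w, hw1, hw2⟩ := h v fun l => by
    rw [← Jac_apply]
    exact congrFun hv l
  refine ⟨fun a => (aeval (Sum.elim y (0 : Fin (M a) → ℝ)) (s a).den : ℝ) ^ 2 • w a, ?_⟩
  change Ltot s B y _ = v
  rw [Ltot_apply]
  funext i
  rw [Finset.sum_apply, ← hw2 i, ← Finset.sum_subset (Finset.subset_univ B)]
  · exact Finset.sum_congr rfl fun a ha => scale_vel s hw1 a i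
  · intro a _ ha
    rw [hw1 a (hB a ha)]
    simp

lemma Ltot_range_le (s : ∀ a, Spray F (M a)) (B : Finset (Fin k)) {y : Fin n → ℝ}
    (hy : y ∈ realPoints F)
    (hB : ∀ a ∈ B, (aeval (Sum.elim y (0 : Fin (M a) → ℝ)) (s a).den : ℝ) ≠ 0) :
    LinearMap.range (Ltot s B y : (∀ a, Fin (M a) → ℝ) →ₗ[ℝ] (Fin n → ℝ)) ≤
      LinearMap.ker (Jac F y : (Fin n → ℝ) →ₗ[ℝ] (Fin m → ℝ)) := by
  rintro _ ⟨w, rfl⟩
  change Jac F y (Ltot s B y w) = 0
  rw [Ltot_apply, map_sum]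
  refine Finset.sum_eq_zero fun a ha => ?_
  exact (s a).range_le hy (hB a ha) ⟨w a, rfl⟩

/-- **The set of the dominated points is relatively open.** -/
theorem dominated_open (s : ∀ a, Spray F (M a)) {x : Fin n → ℝ} (hx : x ∈ realPoints F)
    (hd : Dominated s x) : ∀ᶠ y in 𝓝[realPoints F] x, Dominated s y := by
  classical
  set B : Finset (Fin k) := Finset.univ.filter fun a =>
    (aeval (Sum.elim x (0 : Fin (M a) → ℝ)) (s a).den : ℝ) ≠ 0 with hB
  have hk := of_dominated s B (y := x) (fun a ha => by simpa [hB] using ha) hd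
  have hr := Ltot_range_le s B hx (fun a ha => by simpa [hB] using ha)
  set O : Set (Fin n → ℝ) := ⋂ a ∈ B, {y | (aeval (Sum.elim y (0 : Fin (M a) → ℝ)) (s a).den : ℝ) ≠ 0}
    with hO
  have hOo : IsOpen O := isOpen_biInter_finset fun a _ => isOpen_den (s a)
  have hxO : x ∈ O := by
    simp only [hO, Set.mem_iInter]
    intro a ha
    simpa [hB] using ha
  set d := Module.finrank ℝ (LinearMap.range
    (Ltot s B x : (∀ a, Fin (M a) → ℝ) →ₗ[ℝ] (Fin n → ℝ))) with hdef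
  set e := Module.finrank ℝ (LinearMap.range (Jac F x : (Fin n → ℝ) →ₗ[ℝ] (Fin m → ℝ))) with hedef
  have hsum : e + d = n := by
    have h1 := LinearMap.finrank_range_add_finrank_ker
      (Jac F x : (Fin n → ℝ) →ₗ[ℝ] (Fin m → ℝ))
    rw [le_antisymm hk hr] at h1
    simpa using h1
  have hLc : ContinuousOn (Ltot s B) O := by
    refine continuousOn_finset_sum _ fun a ha => ?_
    refine ContinuousOn.clm_comp ?_ continuousOn_const
    exact (s a).continuousOn_L.mono fun y hy => by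
      simp only [hO, Set.mem_iInter] at hy
      exact hy a ha
  have hA : ∀ᶠ y in 𝓝 x, (d : Cardinal) ≤
      (Ltot s B y : (∀ a, Fin (M a) → ℝ) →ₗ[ℝ] (Fin n → ℝ)).rank := by
    have h1 : Ltot s B x ∈ {f : (∀ a, Fin (M a) → ℝ) →L[ℝ] (Fin n → ℝ) |
        (d : Cardinal) ≤ (f : (∀ a, Fin (M a) → ℝ) →ₗ[ℝ] (Fin n → ℝ)).rank} := by
      change (d : Cardinal) ≤ Module.rank ℝ _
      rw [hdef, Module.finrank_eq_rank]
    have h2 : ContinuousAt (Ltot s B) x := hLc.continuousAt (hOo.mem_nhds hxO)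
    exact h2.eventually ((isOpen_setOfPred_nat_le_rank d).mem_nhds h1)
  have hB' : ∀ᶠ y in 𝓝 x, (e : Cardinal) ≤
      (Jac F y : (Fin n → ℝ) →ₗ[ℝ] (Fin m → ℝ)).rank := by
    have h1 : Jac F x ∈ {f : (Fin n → ℝ) →L[ℝ] (Fin m → ℝ) |
        (e : Cardinal) ≤ (f : (Fin n → ℝ) →ₗ[ℝ] (Fin m → ℝ)).rank} := by
      change (e : Cardinal) ≤ Module.rank ℝ _
      rw [hedef, Module.finrank_eq_rank]
    exact (continuous_Jac F).continuousAt.eventually
      ((isOpen_setOfPred_nat_le_rank e).mem_nhds h1)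
  filter_upwards [nhdsWithin_le_nhds hA, nhdsWithin_le_nhds hB',
    nhdsWithin_le_nhds (hOo.mem_nhds hxO), self_mem_nhdsWithin] with y h1 h2 h3 h4
  have h3' : ∀ a ∈ B, (aeval (Sum.elim y (0 : Fin (M a) → ℝ)) (s a).den : ℝ) ≠ 0 := by
    intro a ha
    simp only [hO, Set.mem_iInter] at h3
    exact h3 a ha
  refine dominated_of s B h3' ?_
  have h5 := Ltot_range_le s B h4 h3'
  have h6 : d ≤ Module.finrank ℝ (LinearMap.range
      (Ltot s B y : (∀ a, Fin (M a) → ℝ) →ₗ[ℝ] (Fin n → ℝ))) := by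
    have : (d : Cardinal) ≤ Module.rank ℝ
      (LinearMap.range (Ltot s B y : (∀ a, Fin (M a) → ℝ) →ₗ[ℝ] (Fin n → ℝ))) := h1
    rw [← Module.finrank_eq_rank] at this
    exact_mod_cast this
  have h7 : e ≤ Module.finrank ℝ (LinearMap.range (Jac F y : (Fin n → ℝ) →ₗ[ℝ] (Fin m → ℝ))) := by
    have : (e : Cardinal) ≤ Module.rank ℝ
      (LinearMap.range (Jac F y : (Fin n → ℝ) →ₗ[ℝ] (Fin m → ℝ))) := h2
    rw [← Module.finrank_eq_rank] at this
    exact_mod_cast this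
  have h8 := LinearMap.finrank_range_add_finrank_ker
      (Jac F y : (Fin n → ℝ) →ₗ[ℝ] (Fin m → ℝ))
  rw [Module.finrank_fin_fun] at h8
  exact (Submodule.eq_of_le_of_finrank_le h5 (by omega)).ge

/-- **The set of the dominated points is semialgebraic.** -/
theorem sap_dominated (s : ∀ a, Spray F (M a)) : SAP (fun x : Fin n → ℝ => Dominated s x) := by
  have hc : ∀ (a : Fin k) (G : MvPolynomial (Fin n ⊕ Fin (M a)) ℚ), PF (fun x : Fin n → ℝ =>
      (aeval (Sum.elim x (0 : Fin (M a) → ℝ)) G : ℝ)) := fun a G =>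
    (PF.aeval G).comp (φ := fun (x : Fin n → ℝ) q => (Sum.elim x (0 : Fin (M a) → ℝ) q)) (by
      rintro (i | j)
      · exact PF.coord i
      · exact PF.zero)
  have hP : SAP (fun w : (Fin n ⊕ Fin n) → ℝ =>
      (∀ l, ∑ i, (aeval (fun i => w (Sum.inr i)) (pderiv i (F l)) : ℝ) * w (Sum.inl i) = 0) →
      ∃ u : (Σ a, Fin (M a)) → ℝ,
        (∀ a, (aeval (Sum.elim (fun i => w (Sum.inr i)) (0 : Fin (M a) → ℝ)) (s a).den : ℝ) = 0 →
          ∀ j, u ⟨a, j⟩ = 0) ∧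
        ∀ i, ∑ a, ∑ j, (aeval (Sum.elim (fun i => w (Sum.inr i)) (0 : Fin (M a) → ℝ))
        ((s a).vel i j) : ℝ) * u ⟨a, j⟩ = w (Sum.inl i)) := by
    refine SAP.imp (SAP.forall_fin fun l => SAP.eq_zero (PF.sum _ fun i _ => ?_)) ?_
    · exact ((PF.aeval (pderiv i (F l))).comp
        (φ := fun (w : (Fin n ⊕ Fin n) → ℝ) i => w (Sum.inr i)) (fun i => PF.coord _)).mul
        (PF.coord _)
    · refine SAP.congr (SAP.exists_fun (Σ a, Fin (M a)) (Fin n ⊕ Fin n) (fun w =>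
        (∀ a, (aeval (Sum.elim (fun i => w (Sum.inr (Sum.inr i))) (0 : Fin (M a) → ℝ))
          (s a).den : ℝ) = 0 → ∀ j, w (Sum.inl ⟨a, j⟩) = 0) ∧
        ∀ i, ∑ a, ∑ j, (aeval (Sum.elim (fun i => w (Sum.inr (Sum.inr i))) (0 : Fin (M a) → ℝ))
        ((s a).vel i j) : ℝ) * w (Sum.inl ⟨a, j⟩) = w (Sum.inr (Sum.inl i))) ?_) fun v => Iff.rfl
      refine SAP.and (SAP.forall_fin fun a => SAP.imp ?_ (SAP.forall_fin fun j =>
        SAP.eq_zero (PF.coord _))) (SAP.forall_fin fun i => SAP.eq (PF.sum _ fun a _ =>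
          PF.sum _ fun j _ => ?_) (PF.coord _))
      · exact SAP.eq_zero ((hc a (s a).den).comp
          (φ := fun (w : (Σ a, Fin (M a)) ⊕ (Fin n ⊕ Fin n) → ℝ) i => w (Sum.inr (Sum.inr i)))
          (fun i => PF.coord _))
      · exact ((hc a ((s a).vel i j)).comp
          (φ := fun (w : (Σ a, Fin (M a)) ⊕ (Fin n ⊕ Fin n) → ℝ) i => w (Sum.inr (Sum.inr i)))
          (fun i => PF.coord _)).mul (PF.coord _)
  refine SAP.congr (SAP.exists_fun (Fin n) (Fin n) _ hP.not).not fun x => ?_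
  simp only [not_exists, not_not, Sum.elim_inl, Sum.elim_inr]
  refine forall_congr' fun v => forall_congr' fun _ => ?_
  constructor
  · rintro ⟨w, hw1, hw2⟩
    exact ⟨fun q => w q.1 q.2, fun a ha j => congrFun (hw1 a ha) j, hw2⟩
  · rintro ⟨u, hu1, hu2⟩
    exact ⟨fun a j => u ⟨a, j⟩, fun a ha => funext fun j => hu1 a ha j, hu2⟩

/-- **The closure of the set of the dominated rational points is semialgebraic.** -/
theorem main (s : ∀ a, Spray F (M a)) :
    SA (closure (rl {r ∈ ratPoints F | Dominated s fun i => (r i : ℝ)})) := by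
  set V : Set (Fin n → ℝ) := {x | x ∈ realPoints F ∧ Dominated s x} with hV
  set W : Set (Fin n → ℝ) := {x | x ∈ V ∧ x ∈ closure (rl (ratPoints F))} with hW
  have hVs : SA V := SAP.and (SAP.forall_fin fun l => SAP.eq_zero (PF.aeval (F l)))
    (sap_dominated s)
  have hLC : LC V W := by
    intro x hx
    by_cases hxC : x ∈ closure (rl (ratPoints F))
    · have h1 := near_fam s hxC hx.2
      have h2 : closure (rl (ratPoints F)) ∈ 𝓝[V] x := nhdsWithin_mono x (fun y hy => hy.1) h1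
      filter_upwards [h2, self_mem_nhdsWithin] with y hy hyV
      exact ⟨fun _ => ⟨hx, hxC⟩, fun _ => ⟨hyV, hy⟩⟩
    · have h2 : (closure (rl (ratPoints F)))ᶜ ∈ 𝓝[V] x :=
        nhdsWithin_le_nhds (isClosed_closure.isOpen_compl.mem_nhds hxC)
      filter_upwards [h2] with y hy
      exact ⟨fun h => absurd h.2 hy, fun h => absurd h.2 hxC⟩
  have hWs : SA W := sa_of_lc _ V W hVs (fun x hx => hx.1) hLC
  have hcl : closure (rl {r ∈ ratPoints F | Dominated s fun i => (r i : ℝ)}) = closure W := by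
    apply Subset.antisymm
    · refine closure_mono ?_
      rintro _ ⟨r, ⟨hr, hd⟩, rfl⟩
      exact ⟨⟨rl_subset F ⟨r, hr, rfl⟩, hd⟩, subset_closure ⟨r, hr, rfl⟩⟩
    · refine closure_minimal ?_ isClosed_closure
      rintro x ⟨⟨hxX, hxd⟩, hxC⟩
      have h1 := dominated_open s hxX hxd
      rw [mem_closure_iff_frequently] at hxC ⊢
      have h2 := (mem_nhdsWithin_iff_eventually.1 h1)
      refine (hxC.and_eventually h2).mono ?_
      rintro _ ⟨⟨r, hr, rfl⟩, hy⟩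
      exact ⟨r, ⟨hr, hy (rl_subset F ⟨r, hr, rfl⟩)⟩, rfl⟩
  rw [hcl]
  exact SA.closure hWs

end Pool.Agent.Q83.SP
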