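import Pool.Agent.Q83.Spray.Fam

/-!
# Linear unipotent one-parameter groups (helper83)
-/

set_option autoImplicit false

namespace Pool.Agent.Q83.SP

open MvPolynomial Set Filter Topology Pool.Agent.H581R2 Pool.Agent.TH729.SQ Matrix

variable {n m : ℕ} {F : Fin m → MvPolynomial (Fin n) ℚ}

/-- The vector `∑_{l ≤ n} t^l / l! A^l x`, which is `exp(t A) x` for a nilpotent matrix `A`. -/
noncomputable def uflow (A : Matrix (Fin n) (Fin n) ℚ) (t : ℝ) (x : Fin n → ℝ) : Fin n → ℝ :=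
  fun i => ∑ l ∈ Finset.range (n + 1), t ^ l / (l.factorial : ℝ) *
    (((A ^ l).map (Rat.castHom ℝ)) *ᵥ x) i

/-- the polynomial of `uflow` -/
noncomputable def unum (A : Matrix (Fin n) (Fin n) ℚ) (i : Fin n) :
    MvPolynomial (Fin n ⊕ Fin 1) ℚ :=
  ∑ l ∈ Finset.range (n + 1), C (1 / (l.factorial : ℚ)) * X (Sum.inr 0) ^ l *
    ∑ j, C ((A ^ l) i j) * X (Sum.inl j)

lemma aeval_lin (A : Matrix (Fin n) (Fin n) ℚ) (i : Fin n) (x : Fin n → ℝ) (r : Fin 1 → ℝ) :
    (aeval (Sum.elim x r) (∑ j, C (A i j) * X (Sum.inl j) : MvPolynomial (Fin n ⊕ Fin 1) ℚ) : ℝ) =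
      ((A.map (Rat.castHom ℝ)) *ᵥ x) i := by
  simp [Matrix.mulVec, dotProduct]

lemma aeval_unum (A : Matrix (Fin n) (Fin n) ℚ) (i : Fin n) (x : Fin n → ℝ) (r : Fin 1 → ℝ) :
    (aeval (Sum.elim x r) (unum A i) : ℝ) = uflow A (r 0) x i := by
  rw [unum, map_sum, uflow]
  refine Finset.sum_congr rfl fun l _ => ?_
  rw [map_mul, map_mul, aeval_lin, map_pow, aeval_X, Sum.elim_inr, algHom_C]
  congr 1
  simp
  ring

lemma uflow_zero (A : Matrix (Fin n) (Fin n) ℚ) (x : Fin n → ℝ) : uflow A 0 x = x := by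
  funext i
  rw [uflow, Finset.sum_eq_single 0]
  · simp
  · intro l _ hl
    simp [hl]
  · simp

/-- the spray of a linear unipotent one-parameter group -/
noncomputable def linSpray (A : Matrix (Fin n) (Fin n) ℚ)
    (h : ∀ x ∈ realPoints F, ∀ t : ℝ, uflow A t x ∈ realPoints F) : Spray F 1 where
  num := unum A
  den := 1
  maps := fun x r hx _ => by
    have e : (fun i => (aeval (Sum.elim x r) (unum A i) : ℝ) / aeval (Sum.elim x r)
        (1 : MvPolynomial (Fin n ⊕ Fin 1) ℚ)) = uflow A (r 0) x := by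
      funext i
      rw [aeval_unum, map_one, div_one]
    rw [e]
    exact h x hx _
  base := fun x _ _ i => by
    rw [aeval_unum, map_one, div_one]
    exact congrFun (uflow_zero A x) i

lemma vel_lin (A : Matrix (Fin n) (Fin n) ℚ)
    (h : ∀ x ∈ realPoints F, ∀ t : ℝ, uflow A t x ∈ realPoints F) (x : Fin n → ℝ) (i : Fin n) :
    (aeval (Sum.elim x (0 : Fin 1 → ℝ)) ((linSpray A h).vel i 0) : ℝ) =
      ((A.map (Rat.castHom ℝ)) *ᵥ x) i := by
  have hp : ∀ l : ℕ, pderiv (Sum.inr 0) (∑ j, C ((A ^ l) i j) * X (Sum.inl j) :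
      MvPolynomial (Fin n ⊕ Fin 1) ℚ) = 0 := by
    intro l
    rw [map_sum]
    refine Finset.sum_eq_zero fun j _ => ?_
    simp [pderiv_X]
  simp only [Spray.vel, linSpray, one_mul, pderiv_one, mul_zero, sub_zero]
  rw [unum, map_sum, map_sum]
  have hterm : ∀ l : ℕ, (aeval (Sum.elim x (0 : Fin 1 → ℝ)) (pderiv (Sum.inr 0)
      (C (1 / (l.factorial : ℚ)) * X (Sum.inr 0) ^ l * ∑ j, C ((A ^ l) i j) * X (Sum.inl j) :
        MvPolynomial (Fin n ⊕ Fin 1) ℚ)) : ℝ) =
      1 / (l.factorial : ℝ) * (l * (0 : ℝ) ^ (l - 1)) *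
        (((A ^ l).map (Rat.castHom ℝ)) *ᵥ x) i := by
    intro l
    rw [Derivation.leibniz, hp l, smul_zero, zero_add, smul_eq_mul, map_mul, aeval_lin,
      Derivation.leibniz, pderiv_C, smul_zero, add_zero, smul_eq_mul, map_mul,
      Derivation.leibniz_pow]
    simp
    ring
  rw [Finset.sum_congr rfl fun l _ => hterm l, Finset.sum_eq_single 1]
  · simp
  · intro l _ hl
    rcases Nat.lt_or_gt_of_ne hl with h1 | h1
    · have : l = 0 := by omega
      simp [this]
    · have : l - 1 ≠ 0 := by omega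
      simp [this]
  · intro h1
    have h2 : n = 0 := by
      simp only [Finset.mem_range, not_lt] at h1
      omega
    subst h2
    exact i.elim0

/-- **Varieties with linear unipotent one-parameter groups.** -/
theorem main_lin {k : ℕ} (A : Fin k → Matrix (Fin n) (Fin n) ℚ)
    (h : ∀ a, ∀ x ∈ realPoints F, ∀ t : ℝ, uflow (A a) t x ∈ realPoints F) :
    SA (closure (rl {r ∈ ratPoints F | ∀ v : Fin n → ℝ,
      (∀ l, ∑ i, (aeval (fun i => (r i : ℝ)) (pderiv i (F l)) : ℝ) * v i = 0) →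
      ∃ w : Fin k → ℝ, v = ∑ a, w a • (((A a).map (Rat.castHom ℝ)) *ᵥ fun i => (r i : ℝ))})) := by
  have h1 := main (F := F) (k := k) (M := fun _ => 1) fun a => linSpray (A a) (h a)
  have e : {r ∈ ratPoints F | ∀ v : Fin n → ℝ,
      (∀ l, ∑ i, (aeval (fun i => (r i : ℝ)) (pderiv i (F l)) : ℝ) * v i = 0) →
      ∃ w : Fin k → ℝ, v = ∑ a, w a • (((A a).map (Rat.castHom ℝ)) *ᵥ fun i => (r i : ℝ))} =
      {r ∈ ratPoints F | Dominated (k := k) (M := fun _ => 1) (fun a => linSpray (A a) (h a))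
        fun i => (r i : ℝ)} := by
    ext r
    refine and_congr_right fun _ => forall_congr' fun v => forall_congr' fun _ => ?_
    constructor
    · rintro ⟨w, hw⟩
      refine ⟨fun a _ => w a, fun a ha => ?_, fun i => ?_⟩
      · simp [linSpray] at ha
      · rw [hw, Finset.sum_apply]
        refine Finset.sum_congr rfl fun a _ => ?_
        rw [Fin.sum_univ_one, vel_lin]
        simp only [Pi.smul_apply, smul_eq_mul]
        ring
    · rintro ⟨w, -, hw⟩
      refine ⟨fun a => w a 0, ?_⟩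
      funext i
      rw [← hw i, Finset.sum_apply]
      refine Finset.sum_congr rfl fun a _ => ?_
      rw [Fin.sum_univ_one, vel_lin]
      simp only [Pi.smul_apply, smul_eq_mul]
      ring
  rw [e]
  exact h1

end Pool.Agent.Q83.SP
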