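import Pool.Agent.TH729.BQ.R6
import Pool.Agent.TH729.SQ.Comp

/-!
# Dominating local sprays on affine varieties over `ℚ` (helper83)
-/

set_option autoImplicit false

namespace Pool.Agent.Q83.SP

open MvPolynomial Set Filter Topology

/-- polynomial functions are strictly differentiable -/
theorem strict_aeval {ι : Type*} [Fintype ι] (G : MvPolynomial ι ℚ) (x : ι → ℝ) :
    HasStrictFDerivAt (fun y : ι → ℝ => aeval y G)
      (∑ j, (aeval x (pderiv j G)) • (ContinuousLinearMap.proj j : (ι → ℝ) →L[ℝ] ℝ)) x := by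
  classical
  induction G using MvPolynomial.induction_on with
  | C a =>
    simp only [algHom_C, pderiv_C, map_zero, zero_smul, Finset.sum_const_zero]
    exact hasStrictFDerivAt_const _ _
  | add p q hp hq =>
    have h := hp.add hq
    have e1 : (fun y : ι → ℝ => aeval y (p + q)) = fun y => aeval y p + aeval y q := by
      funext y; rw [map_add]
    rw [e1]
    refine h.congr_fderiv ?_
    rw [← Finset.sum_add_distrib]
    apply Finset.sum_congr rfl
    intro j _
    rw [map_add, map_add, add_smul]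
  | mul_X p i hp =>
    have hX : HasStrictFDerivAt (fun y : ι → ℝ => y i)
        (ContinuousLinearMap.proj i : (ι → ℝ) →L[ℝ] ℝ) x :=
      (ContinuousLinearMap.proj i : (ι → ℝ) →L[ℝ] ℝ).hasStrictFDerivAt
    have h := hp.mul hX
    have e1 : (fun y : ι → ℝ => aeval y (p * X i)) = fun y => aeval y p * y i := by
      funext y; rw [map_mul, aeval_X]
    rw [e1]
    refine h.congr_fderiv ?_
    apply ContinuousLinearMap.ext
    intro v
    simp only [add_apply, smul_apply,
      ContinuousLinearMap.proj_apply, sum_apply, smul_eq_mul,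
      Derivation.leibniz, map_add, map_mul, aeval_X, pderiv_X]
    have h2 : ∀ j, (aeval x p * aeval x (Pi.single (M := fun _ => MvPolynomial ι ℚ) j 1 i) +
        x i * aeval x (pderiv j p)) * v j = aeval x p * (if i = j then v j else 0) +
        x i * (aeval x (pderiv j p) * v j) := by
      intro j
      by_cases hij : i = j
      · subst hij; simp; ring
      · rw [Pi.single_apply, if_neg hij, if_neg hij]; simp; ring
    simp_rw [h2]
    rw [Finset.sum_add_distrib, ← Finset.mul_sum, ← Finset.mul_sum]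
    simp

/-- **The abstract local statement.** `φ : V → E` passes through `x` with derivative `L`,
`Ψ : E → W` has the strict derivative `J` at `x`, the kernel of `J` is contained in the range of
`L`, and `Ψ ∘ φ = 0`.  Then all points near `x` with `Ψ = 0` are values `φ r` with small `r`. -/
theorem local_onto {V E W : Type*} [NormedAddCommGroup V] [NormedSpace ℝ V] [CompleteSpace V]
    [NormedAddCommGroup E] [NormedSpace ℝ E] [FiniteDimensional ℝ E]
    [NormedAddCommGroup W] [NormedSpace ℝ W] {φ : V → E} {L : V →L[ℝ] E} {Ψ : E → W}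
    {J : E →L[ℝ] W} {x : E} (hφ : HasStrictFDerivAt φ L 0) (hφ0 : φ 0 = x)
    (hΨ : HasStrictFDerivAt Ψ J x) (hker : ∀ v, J v = 0 → ∃ w, L w = v)
    {U : Set V} (hU : U ∈ 𝓝 (0 : V)) (h0 : ∀ r ∈ U, Ψ (φ r) = 0) :
    ∀ᶠ y in 𝓝 x, Ψ y = 0 → ∃ r ∈ U, φ r = y := by
  -- a complement of the kernel of `J`
  obtain ⟨C, hC⟩ := Submodule.exists_isCompl (LinearMap.ker (J : E →ₗ[ℝ] W))
  -- the map `(r, u) ↦ φ r + u` on `V × C`
  set H : V × C → E := fun p => φ p.1 + (p.2 : E) with hH
  have hHd : HasStrictFDerivAt H (L.comp (ContinuousLinearMap.fst ℝ V C) +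
      (C.subtypeL).comp (ContinuousLinearMap.snd ℝ V C)) 0 := by
    refine HasStrictFDerivAt.add ?_ ?_
    · have h1 : HasStrictFDerivAt φ L ((0 : V × C).1) := hφ
      exact h1.comp (0 : V × C) hasStrictFDerivAt_fst
    · exact (C.subtypeL.hasStrictFDerivAt (x := (0 : V × C).2)).comp (0 : V × C)
        hasStrictFDerivAt_snd
  have hsurj : (L.comp (ContinuousLinearMap.fst ℝ V C) +
      (C.subtypeL).comp (ContinuousLinearMap.snd ℝ V C)).range = ⊤ := by
    rw [LinearMap.range_eq_top]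
    intro e
    have he : e ∈ LinearMap.ker (J : E →ₗ[ℝ] W) ⊔ C := by
      rw [hC.sup_eq_top]; trivial
    obtain ⟨k, hk, c, hc, hkc⟩ := Submodule.mem_sup.1 he
    obtain ⟨w, hw⟩ := hker k hk
    refine ⟨(w, ⟨c, hc⟩), ?_⟩
    simp [hw, hkc]
  have hmap := hHd.map_nhds_eq_of_surj hsurj
  have hH0 : H 0 = x := by simp [hH, hφ0]
  rw [hH0] at hmap
  -- the lower bound of `J` on `C`
  have hinj : LinearMap.ker ((J : E →ₗ[ℝ] W).domRestrict C) = ⊥ := by
    rw [LinearMap.ker_eq_bot']
    intro c hc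
    have h1 : (c : E) ∈ LinearMap.ker (J : E →ₗ[ℝ] W) ⊓ C := ⟨hc, c.2⟩
    rw [hC.inf_eq_bot, Submodule.mem_bot] at h1
    exact Subtype.ext h1
  obtain ⟨K, hK, hanti⟩ := LinearMap.exists_antilipschitzWith _ hinj
  have hlow : ∀ c : C, ‖(c : E)‖ ≤ K * ‖J c‖ := by
    intro c
    have h1 := hanti.le_mul_dist c 0
    simpa [dist_eq_norm] using h1
  -- strict differentiability
  have hεpos : (0 : ℝ) < 1 / (2 * K) := by positivity
  have hstr := hΨ.isLittleO.def hεpos
  have hT : Tendsto (fun p : V × C => (H p, φ p.1)) (𝓝 0) (𝓝 (x, x)) := by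
    have h1 : ContinuousAt H 0 := hHd.continuousAt
    have h2 : ContinuousAt (fun p : V × C => φ p.1) 0 :=
      ContinuousAt.comp (f := Prod.fst) (x := (0 : V × C)) (g := φ) hφ.continuousAt continuousAt_fst
    have h3 := h1.prodMk h2
    rw [ContinuousAt, hH0] at h3
    simpa [hφ0] using h3
  have hgood : ∀ᶠ p : V × C in 𝓝 0, p.1 ∈ U ∧
      ‖Ψ (H p) - Ψ (φ p.1) - J (H p - φ p.1)‖ ≤ 1 / (2 * K) * ‖H p - φ p.1‖ := by
    refine Eventually.and ?_ (hT.eventually hstr)
    exact (continuous_fst.tendsto (0 : V × C)).eventually hU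
  have him : H '' {p | p.1 ∈ U ∧
      ‖Ψ (H p) - Ψ (φ p.1) - J (H p - φ p.1)‖ ≤ 1 / (2 * K) * ‖H p - φ p.1‖} ∈ 𝓝 x := by
    rw [← hmap]
    exact image_mem_map hgood
  filter_upwards [him] with y hy hy0
  obtain ⟨⟨r, u⟩, ⟨hr, hb⟩, rfl⟩ := hy
  refine ⟨r, hr, ?_⟩
  have e1 : H (r, u) - φ r = (u : E) := by simp [hH]
  simp only [e1, hy0, h0 r hr, sub_zero, zero_sub, norm_neg] at hb
  have h2 := hlow u
  have h3 : ‖(u : E)‖ ≤ 1 / 2 * ‖(u : E)‖ := by
    calc ‖(u : E)‖ ≤ K * ‖J u‖ := h2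
      _ ≤ K * (1 / (2 * K) * ‖(u : E)‖) := by gcongr
      _ = 1 / 2 * ‖(u : E)‖ := by
        have : (K : ℝ) ≠ 0 := by positivity
        field_simp
  have h4 : (u : E) = 0 := by
    rw [← norm_eq_zero]
    have := norm_nonneg (u : E)
    linarith
  simp [hH, h4]

end Pool.Agent.Q83.SP
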