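import Pool.Agent.Q83.Spray.Local

/-!
# Dominating local sprays on affine varieties over `ℚ`: the closure of the rational points
(helper83)
-/

set_option autoImplicit false

namespace Pool.Agent.Q83.SP

open MvPolynomial Set Filter Topology Pool.Agent.H581R2 Pool.Agent.TH729.SQ

variable {n m : ℕ}

/-- The real points of the affine variety `F₁ = … = F_m = 0`. -/
def realPoints (F : Fin m → MvPolynomial (Fin n) ℚ) : Set (Fin n → ℝ) :=
  {x | ∀ k, aeval x (F k) = 0}

/-- The rational points of the affine variety `F₁ = … = F_m = 0`. -/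
def ratPoints (F : Fin m → MvPolynomial (Fin n) ℚ) : Set (Fin n → ℚ) :=
  {x | ∀ k, eval x (F k) = 0}

/-- A spray on the affine variety `X : F₁ = … = F_m = 0`: a rational map `s : X × 𝔸ᴺ ⇢ X`,
`s(x, r) = num(x, r) / den(x, r)`, over `ℚ` with `s(x, 0) = x`.  It is defined at `x` if
`den(x, 0) ≠ 0`. -/
structure Spray (F : Fin m → MvPolynomial (Fin n) ℚ) (N : ℕ) where
  /-- the numerators of the coordinates -/
  num : Fin n → MvPolynomial (Fin n ⊕ Fin N) ℚ
  /-- the common denominator -/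
  den : MvPolynomial (Fin n ⊕ Fin N) ℚ
  /-- real points of `X` are mapped to real points of `X` -/
  maps : ∀ (x : Fin n → ℝ) (r : Fin N → ℝ), x ∈ realPoints F → aeval (Sum.elim x r) den ≠ 0 →
    (fun i => aeval (Sum.elim x r) (num i) / aeval (Sum.elim x r) den) ∈ realPoints F
  /-- `s(x, 0) = x` -/
  base : ∀ x ∈ realPoints F, aeval (Sum.elim x 0) den ≠ 0 →
    ∀ i, aeval (Sum.elim x 0) (num i) / aeval (Sum.elim x 0) den = x i

variable {F : Fin m → MvPolynomial (Fin n) ℚ} {N : ℕ}

/-- The numerator `den ∂num_i/∂r_j - num_i ∂den/∂r_j` of the derivative of the `i`-th coordinate of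
`s(x, r)` with respect to `r_j`. -/
noncomputable def Spray.vel (s : Spray F N) (i : Fin n) (j : Fin N) :
    MvPolynomial (Fin n ⊕ Fin N) ℚ :=
  s.den * pderiv (Sum.inr j) (s.num i) - s.num i * pderiv (Sum.inr j) s.den

/-- The spray is defined at `x`, and its velocities at `x` span the Zariski tangent space. -/
def Spray.Dominates (s : Spray F N) (x : Fin n → ℝ) : Prop :=
  aeval (Sum.elim x 0) s.den ≠ 0 ∧
  ∀ v : Fin n → ℝ, (∀ k, ∑ i, aeval x (pderiv i (F k)) * v i = 0) →
    ∃ w : Fin N → ℝ, ∀ i, ∑ j, aeval (Sum.elim x (0 : Fin N → ℝ)) (s.vel i j) * w j = v i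

/-- the Jacobi matrix -/
noncomputable def Jac (F : Fin m → MvPolynomial (Fin n) ℚ) (x : Fin n → ℝ) :
    (Fin n → ℝ) →L[ℝ] (Fin m → ℝ) :=
  ContinuousLinearMap.pi fun k =>
    ∑ i, (aeval x (pderiv i (F k))) • (ContinuousLinearMap.proj i : (Fin n → ℝ) →L[ℝ] ℝ)

lemma Jac_apply (F : Fin m → MvPolynomial (Fin n) ℚ) (x v : Fin n → ℝ) (k : Fin m) :
    Jac F x v k = ∑ i, aeval x (pderiv i (F k)) * v i := by
  simp [Jac]

lemma strict_F (F : Fin m → MvPolynomial (Fin n) ℚ) (x : Fin n → ℝ) :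
    HasStrictFDerivAt (fun (y : Fin n → ℝ) (k : Fin m) => aeval y (F k)) (Jac F x) x := by
  rw [hasStrictFDerivAt_pi']
  intro k
  exact strict_aeval (F k) x

/-- the derivative of the spray in the direction of the parameters -/
noncomputable def Spray.L (s : Spray F N) (x : Fin n → ℝ) : (Fin N → ℝ) →L[ℝ] (Fin n → ℝ) :=
  ContinuousLinearMap.pi fun i =>
    ∑ j, ((aeval (Sum.elim x (0 : Fin N → ℝ)) (s.vel i j)) /
      (aeval (Sum.elim x (0 : Fin N → ℝ)) s.den) ^ 2) •
      (ContinuousLinearMap.proj j : (Fin N → ℝ) →L[ℝ] ℝ)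

/-- the derivative of `r ↦ G(x, r)` -/
lemma strict_param (x : Fin n → ℝ) (r : Fin N → ℝ) (G : MvPolynomial (Fin n ⊕ Fin N) ℚ) :
    HasStrictFDerivAt (fun r : Fin N → ℝ => (aeval (Sum.elim x r) G : ℝ))
      (∑ j, (aeval (Sum.elim x r) (pderiv (Sum.inr j) G)) •
        (ContinuousLinearMap.proj j : (Fin N → ℝ) →L[ℝ] ℝ)) r := by
  have h1 := strict_aeval G (Sum.elim x r)
  have h2 : HasStrictFDerivAt (fun r : Fin N → ℝ => (Sum.elim x r : Fin n ⊕ Fin N → ℝ))
      (ContinuousLinearMap.pi fun q => Sum.elim (fun _ => 0)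
        (fun j => (ContinuousLinearMap.proj j : (Fin N → ℝ) →L[ℝ] ℝ)) q) r := by
    rw [hasStrictFDerivAt_pi']
    rintro (i | j)
    · exact hasStrictFDerivAt_const _ _
    · exact (ContinuousLinearMap.proj j : (Fin N → ℝ) →L[ℝ] ℝ).hasStrictFDerivAt
  have h3 := HasStrictFDerivAt.comp (g := fun y : Fin n ⊕ Fin N → ℝ => (aeval y G : ℝ)) r h1 h2
  refine h3.congr_fderiv ?_
  ext v
  simp [Fintype.sum_sum_type]

lemma Spray.strict (s : Spray F N) {x : Fin n → ℝ} (hx : aeval (Sum.elim x 0) s.den ≠ 0) :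
    HasStrictFDerivAt (fun (r : Fin N → ℝ) (i : Fin n) =>
      aeval (Sum.elim x r) (s.num i) / aeval (Sum.elim x r) s.den) (s.L x) 0 := by
  rw [hasStrictFDerivAt_pi']
  intro i
  have h1 := strict_param x (0 : Fin N → ℝ) (s.num i)
  have h2 := strict_param x (0 : Fin N → ℝ) s.den
  have h2' := (hasStrictDerivAt_inv hx).comp_hasStrictFDerivAt (0 : Fin N → ℝ) h2
  have h3 := h1.mul h2'
  have e : (fun r : Fin N → ℝ => (aeval (Sum.elim x r) (s.num i) : ℝ) / aeval (Sum.elim x r) s.den) =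
      fun r => (aeval (Sum.elim x r) (s.num i) : ℝ) * (aeval (Sum.elim x r) s.den)⁻¹ := by
    funext r
    rw [div_eq_mul_inv]
  rw [e]
  refine h3.congr_fderiv ?_
  ext v
  simp only [Spray.L, Spray.vel, map_sub, map_mul, add_apply, Function.comp]
  simp only [smul_apply, sum_apply, ContinuousLinearMap.proj_apply,
    ContinuousLinearMap.comp_apply, ContinuousLinearMap.pi_apply, smul_eq_mul]
  rw [Finset.mul_sum, Finset.mul_sum, Finset.mul_sum, ← Finset.sum_add_distrib]
  refine Finset.sum_congr rfl fun j _ => ?_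
  field_simp
  ring

lemma isClosed_realPoints (F : Fin m → MvPolynomial (Fin n) ℚ) : IsClosed (realPoints F) := by
  have : realPoints F = ⋂ k, {x : Fin n → ℝ | (aeval x (F k) : ℝ) = 0} := by
    ext x; simp [realPoints]
  rw [this]
  exact isClosed_iInter fun k => isClosed_eq (continuous_aeval (F k)) continuous_const

lemma rl_subset (F : Fin m → MvPolynomial (Fin n) ℚ) : rl (ratPoints F) ⊆ realPoints F := by
  rintro _ ⟨r, hr, rfl⟩ k
  rw [aeval_cast, hr k, Rat.cast_zero]

lemma closure_subset_real (F : Fin m → MvPolynomial (Fin n) ℚ) :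
    closure (rl (ratPoints F)) ⊆ realPoints F :=
  closure_minimal (rl_subset F) (isClosed_realPoints F)

lemma elim_cast (r : Fin n → ℚ) (t : Fin N → ℚ) :
    (Sum.elim (fun i => (r i : ℝ)) (fun j => (t j : ℝ)) : Fin n ⊕ Fin N → ℝ) =
      fun q => ((Sum.elim r t q : ℚ) : ℝ) := by
  funext q
  rcases q with i | j <;> rfl

lemma continuous_elim : Continuous fun z : (Fin n → ℝ) × (Fin N → ℝ) =>
    (Sum.elim z.1 z.2 : Fin n ⊕ Fin N → ℝ) := by
  refine continuous_pi fun q => ?_
  rcases q with i | j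
  · exact (continuous_apply i).comp continuous_fst
  · exact (continuous_apply j).comp continuous_snd

lemma dense_rl (N : ℕ) (r : Fin N → ℝ) : r ∈ closure (rl (univ : Set (Fin N → ℚ))) := by
  have h := (DenseRange.piMap (f := fun (_ : Fin N) (q : ℚ) => (q : ℝ))
    fun _ => Rat.denseRange_cast) r
  refine closure_mono ?_ h
  rintro _ ⟨u, rfl⟩
  exact ⟨u, trivial, rfl⟩

/-- **the closure of the rational points is a neighbourhood of its dominated points** -/
theorem near (s : Spray F N) {x : Fin n → ℝ} (hx : x ∈ closure (rl (ratPoints F)))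
    (hd : s.Dominates x) : closure (rl (ratPoints F)) ∈ 𝓝[realPoints F] x := by
  obtain ⟨hden, hdom⟩ := hd
  have hxr : x ∈ realPoints F := closure_subset_real F hx
  have hcd : Continuous fun z : (Fin n → ℝ) × (Fin N → ℝ) => (aeval (Sum.elim z.1 z.2) s.den : ℝ) :=
    (continuous_aeval s.den).comp continuous_elim
  set U : Set (Fin N → ℝ) := {r | (aeval (Sum.elim x r) s.den : ℝ) ≠ 0} with hU
  have hUo : IsOpen U := isOpen_ne_fun (hcd.comp (continuous_const.prodMk continuous_id))
    continuous_const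
  have hUn : U ∈ 𝓝 (0 : Fin N → ℝ) := hUo.mem_nhds hden
  have hloc := local_onto (φ := fun (r : Fin N → ℝ) (i : Fin n) =>
      (aeval (Sum.elim x r) (s.num i) : ℝ) / aeval (Sum.elim x r) s.den)
    (Ψ := fun (y : Fin n → ℝ) (k : Fin m) => (aeval y (F k) : ℝ)) (x := x) (J := Jac F x)
    (s.strict hden) (funext fun i => s.base x hxr hden i) (strict_F F x) ?_ hUn ?_
  · rw [mem_nhdsWithin_iff_eventually]
    filter_upwards [hloc] with y hy hyr
    obtain ⟨r, hrU, hry⟩ := hy (funext fun k => hyr k)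
    -- approximation
    set A : Set ((Fin n → ℝ) × (Fin N → ℝ)) :=
      {z | (aeval (Sum.elim z.1 z.2) s.den : ℝ) ≠ 0} ∩
        ((rl (ratPoints F)) ×ˢ (rl (univ : Set (Fin N → ℚ)))) with hA
    have hmem : (x, r) ∈ closure A := by
      refine (isOpen_ne_fun hcd continuous_const).inter_closure ⟨hrU, ?_⟩
      rw [closure_prod_eq]
      exact ⟨hx, dense_rl N r⟩
    set G : (Fin n → ℝ) × (Fin N → ℝ) → Fin n → ℝ := fun z i =>
      (aeval (Sum.elim z.1 z.2) (s.num i) : ℝ) / aeval (Sum.elim z.1 z.2) s.den with hG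
    have hGc : ContinuousAt G (x, r) := by
      refine continuousAt_pi.2 fun i => ContinuousAt.div ?_ ?_ hrU
      · exact ((continuous_aeval (s.num i)).comp continuous_elim).continuousAt
      · exact hcd.continuousAt
    have h1 := (hGc.continuousWithinAt (s := A)).mem_closure_image hmem
    have h2 : G (x, r) = y := hry
    rw [h2] at h1
    refine closure_mono ?_ h1
    rintro _ ⟨⟨a, t⟩, ⟨hne, ⟨a', ha', rfl⟩, ⟨t', -, rfl⟩⟩, rfl⟩
    simp only [Set.mem_ofPred_eq, elim_cast, aeval_cast] at hne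
    have hne' : eval (Sum.elim a' t') s.den ≠ 0 := by
      intro h0
      rw [h0] at hne
      simp at hne
    refine ⟨fun i => eval (Sum.elim a' t') (s.num i) / eval (Sum.elim a' t') s.den, fun k => ?_, ?_⟩
    · have h3 := s.maps (fun i => (a' i : ℝ)) (fun j => (t' j : ℝ)) (rl_subset F ⟨a', ha', rfl⟩)
        (by rw [elim_cast, aeval_cast]; exact hne) k
      have h4 : (fun i => (aeval (Sum.elim (fun i => (a' i : ℝ)) (fun j => (t' j : ℝ))) (s.num i) : ℝ)
          / aeval (Sum.elim (fun i => (a' i : ℝ)) (fun j => (t' j : ℝ))) s.den) =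
          fun i => ((eval (Sum.elim a' t') (s.num i) / eval (Sum.elim a' t') s.den : ℚ) : ℝ) := by
        funext i
        rw [elim_cast, aeval_cast, aeval_cast, Rat.cast_div]
      rw [h4, aeval_cast] at h3
      exact_mod_cast h3
    · funext i
      simp only [hG, elim_cast, aeval_cast, Rat.cast_div]
  · intro v hv
    obtain ⟨w, hw⟩ := hdom v fun k => by
      rw [← Jac_apply, hv]; rfl
    refine ⟨(aeval (Sum.elim x (0 : Fin N → ℝ)) s.den : ℝ) ^ 2 • w, ?_⟩
    funext i
    rw [← hw i]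
    simp only [Spray.L, ContinuousLinearMap.pi_apply, sum_apply, smul_apply,
      ContinuousLinearMap.proj_apply, Pi.smul_apply, smul_eq_mul]
    refine Finset.sum_congr rfl fun j _ => ?_
    field_simp
  · intro r hr
    funext k
    exact s.maps x r hxr hr k

end Pool.Agent.Q83.SP
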