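import Pool.Agent.Q83.Spray.Main

/-!
# The dominated points form a relatively open semialgebraic set (helper83)
-/

set_option autoImplicit false

namespace Pool.Agent.Q83.SP

open MvPolynomial Set Filter Topology Pool.Agent.H581R2 Pool.Agent.TH729.SQ

variable {n m : ℕ} {F : Fin m → MvPolynomial (Fin n) ℚ} {N : ℕ}

lemma Spray.L_apply (s : Spray F N) (x : Fin n → ℝ) (w : Fin N → ℝ) (i : Fin n) :
    s.L x w i = (∑ j, aeval (Sum.elim x (0 : Fin N → ℝ)) (s.vel i j) * w j) /
      (aeval (Sum.elim x (0 : Fin N → ℝ)) s.den) ^ 2 := by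
  simp only [Spray.L, ContinuousLinearMap.pi_apply, sum_apply, smul_apply,
      ContinuousLinearMap.proj_apply, smul_eq_mul]
  rw [Finset.sum_div]
  exact Finset.sum_congr rfl fun j _ => by ring

lemma Spray.dominates_iff (s : Spray F N) (x : Fin n → ℝ) :
    s.Dominates x ↔ (aeval (Sum.elim x (0 : Fin N → ℝ)) s.den : ℝ) ≠ 0 ∧
      LinearMap.ker (Jac F x : (Fin n → ℝ) →ₗ[ℝ] (Fin m → ℝ)) ≤
        LinearMap.range (s.L x : (Fin N → ℝ) →ₗ[ℝ] (Fin n → ℝ)) := by
  refine and_congr_right fun hd => ?_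
  constructor
  · intro h v hv
    obtain ⟨w, hw⟩ := h v fun k => by
      rw [← Jac_apply]
      exact congrFun hv k
    refine ⟨(aeval (Sum.elim x (0 : Fin N → ℝ)) s.den : ℝ) ^ 2 • w, ?_⟩
    funext i
    change s.L x _ i = v i
    rw [Spray.L_apply, ← hw i]
    simp only [Pi.smul_apply, smul_eq_mul]
    rw [div_eq_iff (pow_ne_zero 2 hd), Finset.sum_mul]
    exact Finset.sum_congr rfl fun j _ => by ring
  · intro h v hv
    obtain ⟨w, hw⟩ := h (x := v) (by
      change Jac F x v = 0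
      funext k
      rw [Jac_apply]
      exact hv k)
    refine ⟨(((aeval (Sum.elim x (0 : Fin N → ℝ)) s.den : ℝ) ^ 2)⁻¹) • w, fun i => ?_⟩
    have h1 : s.L x w i = v i := congrFun hw i
    rw [Spray.L_apply] at h1
    rw [← h1]
    simp only [Pi.smul_apply, smul_eq_mul]
    rw [Finset.sum_div]
    exact Finset.sum_congr rfl fun j _ => by ring

/-- the range of the derivative of the spray is contained in the tangent space -/
lemma Spray.range_le (s : Spray F N) {x : Fin n → ℝ} (hx : x ∈ realPoints F)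
    (hd : (aeval (Sum.elim x (0 : Fin N → ℝ)) s.den : ℝ) ≠ 0) :
    LinearMap.range (s.L x : (Fin N → ℝ) →ₗ[ℝ] (Fin n → ℝ)) ≤
      LinearMap.ker (Jac F x : (Fin n → ℝ) →ₗ[ℝ] (Fin m → ℝ)) := by
  have hcd : Continuous fun r : (Fin N → ℝ) => (aeval (Sum.elim x r) s.den : ℝ) :=
    (continuous_aeval s.den).comp (continuous_elim.comp (continuous_const.prodMk continuous_id))
  have h1 := (s.strict hd).hasFDerivAt
  have h2 : HasFDerivAt (fun (y : Fin n → ℝ) (k : Fin m) => (aeval y (F k) : ℝ)) (Jac F x)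
      ((fun (r : Fin N → ℝ) (i : Fin n) =>
        (aeval (Sum.elim x r) (s.num i) : ℝ) / aeval (Sum.elim x r) s.den) 0) := by
    have e : ((fun (r : Fin N → ℝ) (i : Fin n) =>
        (aeval (Sum.elim x r) (s.num i) : ℝ) / aeval (Sum.elim x r) s.den) 0) = x :=
      funext fun i => s.base x hx hd i
    rw [e]
    exact (strict_F F x).hasFDerivAt
  have h3 := h2.comp (0 : Fin N → ℝ) h1
  have h4 : (fun (y : Fin n → ℝ) (k : Fin m) => (aeval y (F k) : ℝ)) ∘
      (fun (r : Fin N → ℝ) (i : Fin n) =>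
        (aeval (Sum.elim x r) (s.num i) : ℝ) / aeval (Sum.elim x r) s.den) =ᶠ[𝓝 0]
      fun _ => 0 := by
    filter_upwards [(isOpen_ne_fun hcd continuous_const).mem_nhds hd] with r hr
    funext k
    exact s.maps x r hx hr k
  have h5 : (Jac F x).comp (s.L x) = 0 :=
    h3.unique ((hasFDerivAt_const (0 : Fin m → ℝ) (0 : Fin N → ℝ)).congr_of_eventuallyEq h4)
  rintro _ ⟨w, rfl⟩
  change Jac F x (s.L x w) = 0
  have := DFunLike.congr_fun h5 w
  simpa using this

lemma continuous_Jac (F : Fin m → MvPolynomial (Fin n) ℚ) : Continuous (Jac F) := by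
  rw [continuous_clm_apply]
  intro v
  refine continuous_pi fun k => ?_
  simp only [Jac_apply]
  exact continuous_finsetSum _ fun i _ => (continuous_aeval _).mul continuous_const

lemma continuous_zero_elim : Continuous fun x : Fin n → ℝ =>
    (Sum.elim x (0 : Fin N → ℝ) : Fin n ⊕ Fin N → ℝ) :=
  continuous_elim.comp (continuous_id.prodMk continuous_const)

lemma Spray.continuousOn_L (s : Spray F N) :
    ContinuousOn s.L {x | (aeval (Sum.elim x (0 : Fin N → ℝ)) s.den : ℝ) ≠ 0} := by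
  rw [continuousOn_clm_apply]
  intro v
  refine continuousOn_pi.2 fun i => ?_
  simp only [Spray.L_apply]
  refine ContinuousOn.div ?_ ?_ fun x hx => pow_ne_zero 2 hx
  · exact (continuous_finsetSum _ fun j _ =>
      ((continuous_aeval _).comp continuous_zero_elim).mul continuous_const).continuousOn
  · exact (((continuous_aeval _).comp continuous_zero_elim).pow 2).continuousOn

lemma isOpen_den (s : Spray F N) :
    IsOpen {x : Fin n → ℝ | (aeval (Sum.elim x (0 : Fin N → ℝ)) s.den : ℝ) ≠ 0} :=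
  isOpen_ne_fun ((continuous_aeval _).comp continuous_zero_elim) continuous_const

/-- **The set of the dominated points is relatively open.** -/
theorem Spray.dominates_open (s : Spray F N) {x : Fin n → ℝ} (hx : x ∈ realPoints F)
    (hd : s.Dominates x) : ∀ᶠ y in 𝓝[realPoints F] x, s.Dominates y := by
  rw [s.dominates_iff] at hd
  obtain ⟨hden, hk⟩ := hd
  set d := Module.finrank ℝ (LinearMap.range (s.L x : (Fin N → ℝ) →ₗ[ℝ] (Fin n → ℝ))) with hdef
  set e := Module.finrank ℝ (LinearMap.range (Jac F x : (Fin n → ℝ) →ₗ[ℝ] (Fin m → ℝ))) with hedef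
  have hsum : e + d = n := by
    have h1 := LinearMap.finrank_range_add_finrank_ker
      (Jac F x : (Fin n → ℝ) →ₗ[ℝ] (Fin m → ℝ))
    rw [le_antisymm hk (s.range_le hx hden)] at h1
    simpa using h1
  have hA : ∀ᶠ y in 𝓝 x, (d : Cardinal) ≤
      (s.L y : (Fin N → ℝ) →ₗ[ℝ] (Fin n → ℝ)).rank := by
    have h1 : s.L x ∈ {f : (Fin N → ℝ) →L[ℝ] (Fin n → ℝ) |
        (d : Cardinal) ≤ (f : (Fin N → ℝ) →ₗ[ℝ] (Fin n → ℝ)).rank} := by
      change (d : Cardinal) ≤ Module.rank ℝ _
      rw [hdef, Module.finrank_eq_rank]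
    have h2 : ContinuousAt s.L x := s.continuousOn_L.continuousAt ((isOpen_den s).mem_nhds hden)
    exact h2.eventually ((isOpen_setOfPred_nat_le_rank d).mem_nhds h1)
  have hB : ∀ᶠ y in 𝓝 x, (e : Cardinal) ≤
      (Jac F y : (Fin n → ℝ) →ₗ[ℝ] (Fin m → ℝ)).rank := by
    have h1 : Jac F x ∈ {f : (Fin n → ℝ) →L[ℝ] (Fin m → ℝ) |
        (e : Cardinal) ≤ (f : (Fin n → ℝ) →ₗ[ℝ] (Fin m → ℝ)).rank} := by
      change (e : Cardinal) ≤ Module.rank ℝ _
      rw [hedef, Module.finrank_eq_rank]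
    exact (continuous_Jac F).continuousAt.eventually
      ((isOpen_setOfPred_nat_le_rank e).mem_nhds h1)
  filter_upwards [nhdsWithin_le_nhds hA, nhdsWithin_le_nhds hB,
    nhdsWithin_le_nhds ((isOpen_den s).mem_nhds hden), self_mem_nhdsWithin] with y h1 h2 h3 h4
  rw [s.dominates_iff]
  refine ⟨h3, ?_⟩
  have h5 := s.range_le h4 h3
  have h6 : d ≤ Module.finrank ℝ (LinearMap.range (s.L y : (Fin N → ℝ) →ₗ[ℝ] (Fin n → ℝ))) := by
    have : (d : Cardinal) ≤ Module.rank ℝ
      (LinearMap.range (s.L y : (Fin N → ℝ) →ₗ[ℝ] (Fin n → ℝ))) := h1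
    rw [← Module.finrank_eq_rank] at this
    exact_mod_cast this
  have h7 : e ≤ Module.finrank ℝ (LinearMap.range (Jac F y : (Fin n → ℝ) →ₗ[ℝ] (Fin m → ℝ))) := by
    have : (e : Cardinal) ≤ Module.rank ℝ
      (LinearMap.range (Jac F y : (Fin n → ℝ) →ₗ[ℝ] (Fin m → ℝ))) := h2
    rw [← Module.finrank_eq_rank] at this
    exact_mod_cast this
  have h8 := LinearMap.finrank_range_add_finrank_ker
      (Jac F y : (Fin n → ℝ) →ₗ[ℝ] (Fin m → ℝ))
  rw [Module.finrank_fin_fun] at h8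
  exact (Submodule.eq_of_le_of_finrank_le h5 (by omega)).ge

/-- **The set of the dominated points is semialgebraic.** -/
theorem Spray.sap (s : Spray F N) : SAP (fun x : Fin n → ℝ => s.Dominates x) := by
  have hc : ∀ (G : MvPolynomial (Fin n ⊕ Fin N) ℚ), PF (fun x : Fin n → ℝ =>
      (aeval (Sum.elim x (0 : Fin N → ℝ)) G : ℝ)) := fun G =>
    (PF.aeval G).comp (φ := fun (x : Fin n → ℝ) q => (Sum.elim x (0 : Fin N → ℝ) q)) (by
      rintro (i | j)
      · exact PF.coord i
      · exact PF.zero)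
  refine SAP.and (SAP.eq_zero (hc s.den)).not ?_
  have hP : SAP (fun w : (Fin n ⊕ Fin n) → ℝ =>
      (∀ k, ∑ i, (aeval (fun i => w (Sum.inr i)) (pderiv i (F k)) : ℝ) * w (Sum.inl i) = 0) →
      ∃ u : Fin N → ℝ, ∀ i, ∑ j, (aeval (Sum.elim (fun i => w (Sum.inr i)) (0 : Fin N → ℝ))
        (s.vel i j) : ℝ) * u j = w (Sum.inl i)) := by
    refine SAP.imp (SAP.forall_fin fun k => SAP.eq_zero (PF.sum _ fun i _ => ?_)) ?_
    · exact ((PF.aeval (pderiv i (F k))).comp
        (φ := fun (w : (Fin n ⊕ Fin n) → ℝ) i => w (Sum.inr i)) (fun i => PF.coord _)).mul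
        (PF.coord _)
    · refine SAP.congr (SAP.exists_fun (Fin N) (Fin n ⊕ Fin n) (fun w => ∀ i,
        ∑ j, (aeval (Sum.elim (fun i => w (Sum.inr (Sum.inr i))) (0 : Fin N → ℝ))
        (s.vel i j) : ℝ) * w (Sum.inl j) = w (Sum.inr (Sum.inl i))) ?_) fun v => Iff.rfl
      refine SAP.forall_fin fun i => SAP.eq (PF.sum _ fun j _ => ?_) (PF.coord _)
      exact ((hc (s.vel i j)).comp
        (φ := fun (w : Fin N ⊕ (Fin n ⊕ Fin n) → ℝ) i => w (Sum.inr (Sum.inr i)))
        (fun i => PF.coord _)).mul (PF.coord _)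
  refine SAP.congr (SAP.exists_fun (Fin n) (Fin n) _ hP.not).not fun x => ?_
  simp only [not_exists, not_not, Sum.elim_inl, Sum.elim_inr]

end Pool.Agent.Q83.SP
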